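import Mathlib

/-!
# Weighted Brouwer inequality: definitions
-/

set_option autoImplicit false

namespace Pool.Agent.H340B

variable {n : ℕ}

/-- The Laplacian `D_A - A` of the weighted graph `A`. -/
def lap (A : Matrix (Fin n) (Fin n) ℝ) : Matrix (Fin n) (Fin n) ℝ :=
  Matrix.diagonal (fun i => ∑ j, A i j) - A

/-- `A` is a weighted graph: symmetric, nonnegative entries, zero diagonal. -/
structure IsWeighted (A : Matrix (Fin n) (Fin n) ℝ) : Prop where
  symm : A.IsSymm
  nonneg : ∀ i j, 0 ≤ A i j
  diag : ∀ i, A i i = 0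

/-- The total weight `e(A)`. -/
def total (A : Matrix (Fin n) (Fin n) ℝ) : ℝ := ∑ i, ∑ j, if i < j then A i j else 0

/-- The inequality of Q1 for the weighted graph `A` and the number `k`: the sum of any `k`
eigenvalues (so also of the `k` largest) of the Laplacian is at most `e(A)` plus the sum of the
weights of some `(k+1).choose 2` pairs (so at most `e(A)` plus the sum of the `(k+1).choose 2`
largest weights). -/
def WeightedIneq (k : ℕ) (A : Matrix (Fin n) (Fin n) ℝ) : Prop :=
  ∀ hL : (lap A).IsHermitian, ∀ s : Finset (Fin n), s.card = k →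
    ∃ P : Finset (Fin n × Fin n), P.card = (k + 1).choose 2 ∧ (∀ p ∈ P, p.1 < p.2) ∧
      ∑ i ∈ s, hL.eigenvalues i ≤ total A + ∑ p ∈ P, A p.1 p.2

open Classical in
/-- Brouwer's inequality for the simple graph `G` and the number `k`: the sum of any `k`
eigenvalues of the Laplacian is at most the number of edges plus `(k+1).choose 2`. -/
def BrouwerIneq (k : ℕ) (G : SimpleGraph (Fin n)) : Prop :=
  ∀ hL : (G.lapMatrix ℝ).IsHermitian, ∀ s : Finset (Fin n), s.card = k →
    ∑ i ∈ s, hL.eigenvalues i ≤ (G.edgeFinset.card : ℝ) + ((k + 1).choose 2 : ℕ)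

/-- The simple graph of the pairs of weight at least `t`. -/
def level (A : Matrix (Fin n) (Fin n) ℝ) (t : ℝ) : SimpleGraph (Fin n) :=
  SimpleGraph.fromRel fun i j => t ≤ A i j

end Pool.Agent.H340B
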