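import Pool.Agent.H340B.Defs

/-!
# Ky Fan's principle
-/

set_option autoImplicit false

open Finset

namespace Pool.Agent.H340B

variable {n : ℕ}

/-- quadratic form of a matrix -/
def qf (M : Matrix (Fin n) (Fin n) ℝ) (x : Fin n → ℝ) : ℝ := ∑ i, ∑ j, M i j * x i * x j

/-- orthonormal frames -/
def Frame (k : ℕ) (v : Fin k → Fin n → ℝ) : Prop :=
  ∀ a b, ∑ i, v a i * v b i = if a = b then 1 else 0

theorem lp_lemma (k : ℕ) (hk : 1 ≤ k) (r μ : Fin n → ℝ) (R : ℝ)
    (hR : ∀ t : Finset (Fin n), t.card = k → ∑ i ∈ t, r i ≤ R)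
    (h0 : ∀ i, 0 ≤ μ i) (h1 : ∀ i, μ i ≤ 1) (hsum : ∑ i, μ i = k) :
    ∑ i, μ i * r i ≤ R := by
  classical
  have hcard : k ≤ Fintype.card (Fin n) := by
    have h2 : ∑ i, μ i ≤ ∑ _i : Fin n, (1 : ℝ) := Finset.sum_le_sum fun i _ => h1 i
    rw [Finset.sum_const, Finset.card_univ, nsmul_eq_mul, hsum, mul_one] at h2
    exact_mod_cast h2
  have hne : (Finset.powersetCard k (Finset.univ : Finset (Fin n))).Nonempty := by
    rw [Finset.powersetCard_nonempty, Finset.card_univ]
    exact hcard
  obtain ⟨t, ht, hmax⟩ := Finset.exists_max_image _ (fun t : Finset (Fin n) => ∑ i ∈ t, r i) hne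
  have htc : t.card = k := (Finset.mem_powersetCard.mp ht).2
  have htne : t.Nonempty := by
    rw [← Finset.card_pos, htc]; omega
  obtain ⟨i0, hi0, hmin⟩ := Finset.exists_min_image t r htne
  have hout : ∀ j, j ∉ t → r j ≤ r i0 := by
    intro j hj
    have hj' : j ∉ t.erase i0 := fun h => hj (Finset.mem_of_mem_erase h)
    have hc : (insert j (t.erase i0)).card = k := by
      rw [Finset.card_insert_of_notMem hj', Finset.card_erase_of_mem hi0, htc]; omega
    have h5 := hmax (insert j (t.erase i0))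
      (Finset.mem_powersetCard.mpr ⟨Finset.subset_univ _, hc⟩)
    have h6 : ∑ i ∈ insert j (t.erase i0), r i = r j + ∑ i ∈ t.erase i0, r i :=
      Finset.sum_insert hj'
    have h7 : ∑ i ∈ t.erase i0, r i + r i0 = ∑ i ∈ t, r i := Finset.sum_erase_add t r hi0
    linarith
  have hsplit : ∑ i, μ i * r i = ∑ i, μ i * (r i - r i0) + r i0 * k := by
    rw [← hsum, Finset.mul_sum, ← Finset.sum_add_distrib]
    refine Finset.sum_congr rfl fun i _ => ?_
    ring
  have hsub : ∑ i, μ i * (r i - r i0) ≤ ∑ i ∈ t, μ i * (r i - r i0) := by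
    rw [← Finset.sum_add_sum_compl t (fun i => μ i * (r i - r i0))]
    have : ∑ i ∈ tᶜ, μ i * (r i - r i0) ≤ 0 := by
      refine Finset.sum_nonpos fun i hi => ?_
      exact mul_nonpos_of_nonneg_of_nonpos (h0 i)
        (sub_nonpos.mpr (hout i (Finset.mem_compl.mp hi)))
    linarith
  have hin : ∑ i ∈ t, μ i * (r i - r i0) ≤ ∑ i ∈ t, (r i - r i0) := by
    refine Finset.sum_le_sum fun i hi => ?_
    have h8 := h1 i
    have h9 := hmin i hi
    nlinarith
  have heq : ∑ i ∈ t, (r i - r i0) = ∑ i ∈ t, r i - k * r i0 := by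
    rw [Finset.sum_sub_distrib, Finset.sum_const, htc, nsmul_eq_mul]
  have := hR t htc
  rw [hsplit]
  linarith

theorem kyfan (A : Matrix (Fin n) (Fin n) ℝ) (hA : A.IsHermitian) (k : ℕ) (hk : 1 ≤ k) (R : ℝ)
    (h : ∀ t : Finset (Fin n), t.card = k → ∑ i ∈ t, hA.eigenvalues i ≤ R)
    (v : Fin k → Fin n → ℝ) (hv : Frame k v) :
    ∑ a, qf A (v a) ≤ R := by
  have inn : ∀ x y : EuclideanSpace ℝ (Fin n), inner ℝ x y = ∑ i, x i * y i := by
    intro x y
    rw [PiLp.inner_apply]
    refine Finset.sum_congr rfl fun i _ => ?_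
    simp [mul_comm]
  set w := hA.eigenvectorBasis with hw
  let V : Fin k → EuclideanSpace ℝ (Fin n) := fun k => WithLp.toLp 2 (v k)
  have hVi : ∀ k i, V k i = v k i := fun _ _ => rfl
  have hV : Orthonormal ℝ V := by
    rw [orthonormal_iff_ite]
    intro k l
    rw [inn]
    simpa [hVi] using hv k l
  have eig : ∀ j i, ∑ l, A i l * w j l = hA.eigenvalues j * w j i := by
    intro j i
    have := congrFun (hA.mulVec_eigenvectorBasis j) i
    simpa [Matrix.mulVec, dotProduct] using this
  have sym : ∀ i j, A i j = A j i := by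
    intro i j
    have := hA.apply i j
    simpa using this.symm
  -- quadratic form
  have quad : ∀ k, qf A (v k)
      = ∑ j, (inner ℝ (w j) (V k)) ^ 2 * hA.eigenvalues j := by
    intro k
    let AV : EuclideanSpace ℝ (Fin n) := WithLp.toLp 2 (fun i => ∑ j, A i j * v k j)
    have h1 : qf A (v k) = inner ℝ (V k) AV := by
      rw [inn]
      refine Finset.sum_congr rfl fun i _ => ?_
      change _ = v k i * ∑ j, A i j * v k j
      rw [Finset.mul_sum]
      exact Finset.sum_congr rfl fun j _ => by ring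
    rw [h1, ← w.sum_inner_mul_inner]
    refine Finset.sum_congr rfl fun j _ => ?_
    have h2 : inner ℝ (w j) AV = hA.eigenvalues j * inner ℝ (w j) (V k) := by
      rw [inn, inn, Finset.mul_sum]
      change ∑ i, w j i * ∑ l, A i l * v k l = ∑ i, hA.eigenvalues j * (w j i * v k i)
      have e1 : ∀ i, w j i * ∑ l, A i l * v k l = ∑ l, w j i * (A i l * v k l) :=
        fun i => Finset.mul_sum _ _ _
      rw [Finset.sum_congr rfl fun i _ => e1 i, Finset.sum_comm]
      refine Finset.sum_congr rfl fun l _ => ?_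
      rw [← mul_assoc, ← eig j l, Finset.sum_mul]
      refine Finset.sum_congr rfl fun i _ => ?_
      rw [sym i l]; ring
    rw [h2, real_inner_comm]
    ring
  have key := lp_lemma k hk hA.eigenvalues (fun j => ∑ k, (inner ℝ (w j) (V k)) ^ 2) R h
    (fun j => Finset.sum_nonneg fun k _ => sq_nonneg _) ?_ ?_
  · have e : ∑ a, qf A (v a)
        = ∑ j, (∑ k, (inner ℝ (w j) (V k)) ^ 2) * hA.eigenvalues j := by
      rw [Finset.sum_congr rfl fun k _ => quad k, Finset.sum_comm]
      exact Finset.sum_congr rfl fun j _ => (Finset.sum_mul _ _ _).symm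
    rw [e]; exact key
  · intro j
    have h3 := hV.sum_inner_products_le (x := w j) (s := Finset.univ)
    have h4 : ‖w j‖ = 1 := w.orthonormal.1 j
    rw [h4] at h3
    have h5 : ∑ k, (inner ℝ (w j) (V k)) ^ 2 = ∑ k, ‖inner ℝ (V k) (w j)‖ ^ 2 := by
      refine Finset.sum_congr rfl fun k _ => ?_
      rw [real_inner_comm, Real.norm_eq_abs, sq_abs]
    change ∑ k, (inner ℝ (w j) (V k)) ^ 2 ≤ 1
    rw [h5]
    norm_num at h3 ⊢
    exact h3
  · rw [Finset.sum_comm]
    have h6 : ∀ k, ∑ j, (inner ℝ (w j) (V k)) ^ 2 = 1 := by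
      intro k
      have h7 : inner ℝ (V k) (V k) = (1 : ℝ) := by
        rw [inn]; simpa [hVi] using hv k k
      rw [← h7, ← w.sum_inner_mul_inner]
      refine Finset.sum_congr rfl fun j _ => ?_
      rw [real_inner_comm (V k) (w j)]
      ring
    rw [Finset.sum_congr rfl fun k _ => h6 k]
    simp

/-- conversely, bounds over frames bound sums of eigenvalues -/
theorem eig_le_of_frames (A : Matrix (Fin n) (Fin n) ℝ) (hA : A.IsHermitian) (k : ℕ) (R : ℝ)
    (h : ∀ v : Fin k → Fin n → ℝ, Frame k v → ∑ a, qf A (v a) ≤ R)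
    (s : Finset (Fin n)) (hs : s.card = k) : ∑ i ∈ s, hA.eigenvalues i ≤ R := by
  have inn : ∀ x y : EuclideanSpace ℝ (Fin n), inner ℝ x y = ∑ i, x i * y i := by
    intro x y
    rw [PiLp.inner_apply]
    refine Finset.sum_congr rfl fun i _ => ?_
    simp [mul_comm]
  set w := hA.eigenvectorBasis with hw
  have eig : ∀ j i, ∑ l, A i l * w j l = hA.eigenvalues j * w j i := by
    intro j i
    have := congrFun (hA.mulVec_eigenvectorBasis j) i
    simpa [Matrix.mulVec, dotProduct] using this
  let e : Fin k ≃ s := (Finset.equivFinOfCardEq hs).symm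
  let v : Fin k → Fin n → ℝ := fun a i => w (e a) i
  have hvf : Frame k v := by
    intro a b
    have h1 := orthonormal_iff_ite.mp w.orthonormal (e a) (e b)
    rw [inn] at h1
    rw [show ∑ i, v a i * v b i = ∑ i, w (e a) i * w (e b) i from rfl, h1]
    by_cases hab : a = b
    · simp [hab]
    · have : (e a : Fin n) ≠ e b := fun hh => hab (e.injective (Subtype.ext hh))
      simp [hab, this]
  have hq : ∀ a, qf A (v a) = hA.eigenvalues (e a) := by
    intro a
    have h1 : qf A (v a) = ∑ i, v a i * ∑ j, A i j * v a j := by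
      refine Finset.sum_congr rfl fun i _ => ?_
      rw [Finset.mul_sum]
      exact Finset.sum_congr rfl fun j _ => by ring
    have h2 : ∀ i, ∑ j, A i j * v a j = hA.eigenvalues (e a) * v a i := fun i => eig (e a) i
    rw [h1, Finset.sum_congr rfl fun i _ => by rw [h2 i]]
    have h3 : ∑ i, v a i * (hA.eigenvalues (e a) * v a i)
        = hA.eigenvalues (e a) * ∑ i, v a i * v a i := by
      rw [Finset.mul_sum]; exact Finset.sum_congr rfl fun i _ => by ring
    rw [h3, hvf a a]; simp
  have h4 := h v hvf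
  rw [Finset.sum_congr rfl fun a _ => hq a] at h4
  have h5 : ∑ a, hA.eigenvalues (e a) = ∑ i ∈ s, hA.eigenvalues i := by
    rw [e.sum_comp (fun i : s => hA.eigenvalues i)]
    exact Finset.sum_coe_sort s hA.eigenvalues
  rw [← h5]; exact h4

end Pool.Agent.H340B
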