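import Pool.Agent.H340B.KyFan

/-!
# The layer-cake reduction
-/

set_option autoImplicit false

open Finset

namespace Pool.Agent.H340B

variable {n : ℕ}

theorem half_sum (f : Fin n → Fin n → ℝ) (hs : ∀ i j, f i j = f j i) (h0 : ∀ i, f i i = 0) :
    ∑ i, ∑ j, (if i < j then f i j else 0) = (∑ i, ∑ j, f i j) / 2 := by
  have h1 : ∑ i, ∑ j, f i j = ∑ i, ∑ j, (if i < j then f i j else 0)
      + ∑ i, ∑ j, (if j < i then f i j else 0) := by
    rw [← Finset.sum_add_distrib]
    refine Finset.sum_congr rfl fun i _ => ?_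
    rw [← Finset.sum_add_distrib]
    refine Finset.sum_congr rfl fun j _ => ?_
    rcases lt_trichotomy i j with h | h | h
    · rw [if_pos h, if_neg (not_lt.mpr h.le)]; ring
    · subst h; simp [h0]
    · rw [if_neg (not_lt.mpr h.le), if_pos h]; ring
  have h2 : ∑ i, ∑ j, (if j < i then f i j else 0) = ∑ i, ∑ j, (if i < j then f i j else 0) := by
    rw [Finset.sum_comm]
    refine Finset.sum_congr rfl fun i _ => ?_
    refine Finset.sum_congr rfl fun j _ => ?_
    rw [hs j i]
  rw [h1, h2]; ring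

theorem total_eq {A : Matrix (Fin n) (Fin n) ℝ} (hA : IsWeighted A) :
    total A = (∑ i, ∑ j, A i j) / 2 :=
  half_sum (fun i j => A i j) (fun i j => by rw [hA.symm.apply]) hA.diag

theorem qf_lap {A : Matrix (Fin n) (Fin n) ℝ} (hA : IsWeighted A) (x : Fin n → ℝ) :
    qf (lap A) x = (∑ i, ∑ j, A i j * (x i - x j) ^ 2) / 2 := by
  have h1 : qf (lap A) x = ∑ i, ∑ j, A i j * x i ^ 2 - ∑ i, ∑ j, A i j * x i * x j := by
    unfold qf lap
    rw [← Finset.sum_sub_distrib]
    refine Finset.sum_congr rfl fun i _ => ?_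
    have : ∀ j, (Matrix.diagonal (fun i => ∑ j, A i j) - A) i j * x i * x j
        = (if i = j then (∑ l, A i l) * x i * x j else 0) - A i j * x i * x j := by
      intro j
      rw [Matrix.sub_apply, Matrix.diagonal_apply]
      split_ifs with h <;> ring
    rw [Finset.sum_congr rfl fun j _ => this j, Finset.sum_sub_distrib]
    congr 1
    rw [Finset.sum_ite_eq univ i]
    rw [if_pos (Finset.mem_univ _), Finset.sum_mul, Finset.sum_mul]
    refine Finset.sum_congr rfl fun j _ => by ring
  have h2 : ∑ i, ∑ j, A i j * x j ^ 2 = ∑ i, ∑ j, A i j * x i ^ 2 := by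
    rw [Finset.sum_comm]
    refine Finset.sum_congr rfl fun i _ => ?_
    refine Finset.sum_congr rfl fun j _ => ?_
    rw [hA.symm.apply]
  have h3 : ∑ i, ∑ j, A i j * (x i - x j) ^ 2 = ∑ i, ∑ j, A i j * x i ^ 2
      + ∑ i, ∑ j, A i j * x j ^ 2 - 2 * ∑ i, ∑ j, A i j * x i * x j := by
    rw [Finset.mul_sum, ← Finset.sum_add_distrib, ← Finset.sum_sub_distrib]
    refine Finset.sum_congr rfl fun i _ => ?_
    rw [Finset.mul_sum, ← Finset.sum_add_distrib, ← Finset.sum_sub_distrib]
    refine Finset.sum_congr rfl fun j _ => by ring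
  rw [h1, h3, h2]; ring

theorem bessel {k : ℕ} (v : Fin k → Fin n → ℝ) (hv : Frame k v) (z : Fin n → ℝ) :
    ∑ a, (∑ i, v a i * z i) ^ 2 ≤ ∑ i, z i ^ 2 := by
  have inn : ∀ x y : EuclideanSpace ℝ (Fin n), inner ℝ x y = ∑ i, x i * y i := by
    intro x y
    rw [PiLp.inner_apply]
    refine Finset.sum_congr rfl fun i _ => ?_
    simp [mul_comm]
  let V : Fin k → EuclideanSpace ℝ (Fin n) := fun k => WithLp.toLp 2 (v k)
  have hVi : ∀ k i, V k i = v k i := fun _ _ => rfl
  have hV : Orthonormal ℝ V := by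
    rw [orthonormal_iff_ite]
    intro k l
    rw [inn]
    simpa [hVi] using hv k l
  let Z : EuclideanSpace ℝ (Fin n) := WithLp.toLp 2 z
  have h3 := hV.sum_inner_products_le (x := Z) (s := Finset.univ)
  have h4 : ‖Z‖ ^ 2 = ∑ i, z i ^ 2 := by
    rw [← real_inner_self_eq_norm_sq, inn]
    exact Finset.sum_congr rfl fun i _ => (sq (z i)).symm
  rw [h4] at h3
  refine le_trans (le_of_eq ?_) h3
  refine Finset.sum_congr rfl fun a _ => ?_
  rw [inn, Real.norm_eq_abs, sq_abs]

theorem bessel_diff {k : ℕ} (v : Fin k → Fin n → ℝ) (hv : Frame k v) (i j : Fin n) :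
    ∑ a, (v a i - v a j) ^ 2 ≤ 2 := by
  by_cases hij : i = j
  · subst hij; simp
  have h := bessel v hv (fun l => (if l = i then 1 else 0) - (if l = j then 1 else 0))
  have h1 : ∀ a, ∑ l, v a l * ((if l = i then (1 : ℝ) else 0) - (if l = j then 1 else 0))
      = v a i - v a j := by
    intro a
    simp [mul_sub, Finset.sum_sub_distrib]
  have h2 : ∑ l, ((if l = i then (1 : ℝ) else 0) - (if l = j then 1 else 0)) ^ 2 = 2 := by
    have : ∀ l, ((if l = i then (1 : ℝ) else 0) - (if l = j then 1 else 0)) ^ 2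
        = (if l = i then (1 : ℝ) else 0) + (if l = j then 1 else 0) := by
      intro l
      by_cases h1 : l = i
      · have h2 : l ≠ j := fun h => hij (h1.symm.trans h)
        simp [h1, hij]
      · by_cases h2 : l = j
        · have h3 : j ≠ i := fun h => hij h.symm
          simp [h2, h3]
        · simp [h1, h2]
    rw [Finset.sum_congr rfl fun l _ => this l, Finset.sum_add_distrib]
    simp; norm_num
  rw [h2] at h
  rw [Finset.sum_congr rfl fun a _ => by rw [h1 a]] at h
  exact h

theorem trace_bound {A : Matrix (Fin n) (Fin n) ℝ} (hA : IsWeighted A) {k : ℕ}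
    (v : Fin k → Fin n → ℝ) (hv : Frame k v) : ∑ a, qf (lap A) (v a) ≤ 2 * total A := by
  rw [total_eq hA, Finset.sum_congr rfl fun a _ => qf_lap hA (v a), ← Finset.sum_div]
  have h1 : ∑ a, ∑ i, ∑ j, A i j * (v a i - v a j) ^ 2
      = ∑ i, ∑ j, A i j * ∑ a, (v a i - v a j) ^ 2 := by
    rw [Finset.sum_comm]
    refine Finset.sum_congr rfl fun i _ => ?_
    rw [Finset.sum_comm]
    refine Finset.sum_congr rfl fun j _ => ?_
    rw [Finset.mul_sum]
  rw [h1]
  have h2 : ∑ i, ∑ j, A i j * ∑ a, (v a i - v a j) ^ 2 ≤ ∑ i, ∑ j, A i j * 2 :=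
    Finset.sum_le_sum fun i _ => Finset.sum_le_sum fun j _ =>
      mul_le_mul_of_nonneg_left (bessel_diff v hv i j) (hA.nonneg i j)
  have h3 : ∑ i, ∑ j, A i j * 2 = 2 * ∑ i, ∑ j, A i j := by
    rw [Finset.mul_sum]
    refine Finset.sum_congr rfl fun i _ => ?_
    rw [Finset.mul_sum]
    exact Finset.sum_congr rfl fun j _ => by ring
  rw [h3] at h2
  linarith

/-- the pairs `i < j` -/
def pairs (n : ℕ) : Finset (Fin n × Fin n) := univ.filter fun p => p.1 < p.2

theorem mem_pairs {p : Fin n × Fin n} : p ∈ pairs n ↔ p.1 < p.2 := by simp [pairs]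

theorem total_eq_pairs (A : Matrix (Fin n) (Fin n) ℝ) : total A = ∑ p ∈ pairs n, A p.1 p.2 := by
  unfold total pairs
  rw [Finset.sum_filter, ← Finset.univ_product_univ, Finset.sum_product]

open Classical in
theorem adj_weighted (G : SimpleGraph (Fin n)) : IsWeighted (G.adjMatrix ℝ) where
  symm := G.isSymm_adjMatrix
  nonneg i j := by rw [SimpleGraph.adjMatrix_apply]; split_ifs <;> norm_num
  diag i := by simp

open Classical in
theorem total_adj (G : SimpleGraph (Fin n)) :
    total (G.adjMatrix ℝ) = (G.edgeFinset.card : ℝ) := by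
  rw [total_eq (adj_weighted G)]
  have h1 : ∀ i, ∑ j, G.adjMatrix ℝ i j = (G.degree i : ℝ) := by
    intro i
    simp [SimpleGraph.adjMatrix_apply, ← SimpleGraph.card_neighborFinset_eq_degree,
      SimpleGraph.neighborFinset_eq_filter]
  rw [Finset.sum_congr rfl fun i _ => h1 i]
  have h2 := G.sum_degrees_eq_twice_card_edges
  have h3 : (∑ i, (G.degree i : ℝ)) = 2 * (G.edgeFinset.card : ℝ) := by exact_mod_cast h2
  rw [h3]; ring

open Classical in
theorem lap_adj (G : SimpleGraph (Fin n)) : lap (G.adjMatrix ℝ) = G.lapMatrix ℝ := by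
  unfold lap SimpleGraph.lapMatrix SimpleGraph.degMatrix
  congr 1
  congr 1
  funext i
  simp [SimpleGraph.adjMatrix_apply, ← SimpleGraph.card_neighborFinset_eq_degree,
      SimpleGraph.neighborFinset_eq_filter]

theorem card_pairs (n : ℕ) : (pairs n).card = n.choose 2 := by
  let A0 : Matrix (Fin n) (Fin n) ℝ := fun i j => if i = j then 0 else 1
  have hA0 : IsWeighted A0 := by
    refine ⟨Matrix.IsSymm.ext fun i j => ?_, fun i j => ?_, fun i => ?_⟩
    · change (if j = i then (0 : ℝ) else 1) = if i = j then 0 else 1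
      by_cases h : i = j
      · rw [if_pos h, if_pos h.symm]
      · rw [if_neg h, if_neg fun h' => h h'.symm]
    · change (0 : ℝ) ≤ if i = j then 0 else 1
      split_ifs <;> norm_num
    · change (if i = i then (0 : ℝ) else 1) = 0
      rw [if_pos rfl]
  have h1 : total A0 = ((pairs n).card : ℝ) := by
    rw [total_eq_pairs, Finset.sum_congr rfl (g := fun _ => (1 : ℝ))]
    · rw [Finset.sum_const, nsmul_eq_mul, mul_one]
    · intro p hp
      have := (mem_pairs.mp hp).ne
      change (if p.1 = p.2 then (0 : ℝ) else 1) = 1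
      rw [if_neg this]
  have h2 : total A0 = (n : ℝ) * (n - 1) / 2 := by
    rw [total_eq hA0]
    have : ∀ i, ∑ j, A0 i j = (n : ℝ) - 1 := by
      intro i
      have h3 : ∀ j, A0 i j = 1 - if i = j then (1 : ℝ) else 0 := by
        intro j
        change (if i = j then (0 : ℝ) else 1) = 1 - if i = j then (1 : ℝ) else 0
        split_ifs <;> norm_num
      rw [Finset.sum_congr rfl fun j _ => h3 j, Finset.sum_sub_distrib, Finset.sum_const,
        Finset.card_univ, Fintype.card_fin, Finset.sum_ite_eq univ i, if_pos (Finset.mem_univ _),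
        nsmul_eq_mul, mul_one]
    rw [Finset.sum_congr rfl fun i _ => this i, Finset.sum_const, Finset.card_univ,
      Fintype.card_fin, nsmul_eq_mul]
  have h3 : ((pairs n).card : ℝ) = ((n.choose 2 : ℕ) : ℝ) := by
    rw [← h1, h2, Nat.cast_choose_two]
  exact_mod_cast h3

/-- support of a weight -/
noncomputable def supp (A : Matrix (Fin n) (Fin n) ℝ) : Finset (Fin n × Fin n) :=
  (pairs n).filter fun p => 0 < A p.1 p.2

theorem mem_supp {A : Matrix (Fin n) (Fin n) ℝ} {p : Fin n × Fin n} :
    p ∈ supp A ↔ p.1 < p.2 ∧ 0 < A p.1 p.2 := by simp [supp, mem_pairs]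

theorem zero_off_supp {A : Matrix (Fin n) (Fin n) ℝ} (hA : IsWeighted A) {p : Fin n × Fin n}
    (hp : p.1 < p.2) (h : p ∉ supp A) : A p.1 p.2 = 0 := by
  rw [mem_supp] at h
  have := hA.nonneg p.1 p.2
  by_contra h0
  exact h ⟨hp, lt_of_le_of_ne this (Ne.symm h0)⟩

/-- few edges: trivial case -/
theorem few_edges {A : Matrix (Fin n) (Fin n) ℝ} (hA : IsWeighted A) (k : ℕ) (hkn : k + 1 ≤ n)
    (h : (supp A).card ≤ (k + 1).choose 2) :
    ∃ P : Finset (Fin n × Fin n), P.card = (k + 1).choose 2 ∧ (∀ p ∈ P, p.1 < p.2) ∧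
      ∀ v : Fin k → Fin n → ℝ, Frame k v →
        ∑ a, qf (lap A) (v a) ≤ total A + ∑ p ∈ P, A p.1 p.2 := by
  classical
  have h1 : supp A ⊆ pairs n := Finset.filter_subset _ _
  have h2 : (k + 1).choose 2 ≤ (pairs n).card := by
    rw [card_pairs]; exact Nat.choose_le_choose 2 hkn
  obtain ⟨P, hP1, hP2, hP3⟩ := Finset.exists_subsuperset_card_eq h1 h h2
  refine ⟨P, hP3, fun p hp => mem_pairs.mp (hP2 hp), fun v hv => ?_⟩
  have h3 : ∑ p ∈ P, A p.1 p.2 = total A := by
    rw [total_eq_pairs]
    refine Finset.sum_subset hP2 fun p hp hpP => ?_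
    exact zero_off_supp hA (mem_pairs.mp hp) fun h => hpP (hP1 h)
  rw [h3]
  have := trace_bound hA v hv
  linarith

theorem level_adj {A : Matrix (Fin n) (Fin n) ℝ} (hA : IsWeighted A) (t : ℝ) (i j : Fin n) :
    (level A t).Adj i j ↔ i ≠ j ∧ t ≤ A i j := by
  unfold level
  rw [SimpleGraph.fromRel_adj]
  have : A j i = A i j := hA.symm.apply i j
  rw [this]
  tauto

theorem main_lemma (k : ℕ) (hk : 1 ≤ k) (hkn : k + 1 ≤ n) (m : ℕ) :
    ∀ (A : Matrix (Fin n) (Fin n) ℝ), IsWeighted A → (supp A).card ≤ m →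
      (∀ t : ℝ, 0 < t → BrouwerIneq k (level A t)) →
    ∃ P : Finset (Fin n × Fin n), P.card = (k + 1).choose 2 ∧ (∀ p ∈ P, p.1 < p.2) ∧
      ∀ v : Fin k → Fin n → ℝ, Frame k v →
        ∑ a, qf (lap A) (v a) ≤ total A + ∑ p ∈ P, A p.1 p.2 := by
  classical
  induction m with
  | zero =>
    intro A hA hm _
    exact few_edges hA k hkn (hm.trans (Nat.zero_le _))
  | succ m ih =>
    intro A hA hm hB
    rcases Nat.lt_or_ge ((k + 1).choose 2) (supp A).card with hlt | hge
    swap
    · exact few_edges hA k hkn hge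
    have hne : (supp A).Nonempty := Finset.card_pos.mp (by omega)
    obtain ⟨p0, hp0, hmin⟩ := Finset.exists_min_image (supp A) (fun p => A p.1 p.2) hne
    set c := A p0.1 p0.2 with hc
    have hc0 : 0 < c := (mem_supp.mp hp0).2
    have hsy : ∀ i j, A j i = A i j := fun i j => hA.symm.apply i j
    have hge : ∀ i j, 0 < A i j → c ≤ A i j := by
      intro i j hij
      rcases lt_trichotomy i j with h | h | h
      · exact hmin (i, j) (mem_supp.mpr ⟨h, hij⟩)
      · subst h; rw [hA.diag] at hij; exact absurd hij (lt_irrefl 0)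
      · rw [← hsy i j] at hij ⊢
        exact hmin (j, i) (mem_supp.mpr ⟨h, hij⟩)
    set B := (level A c).adjMatrix ℝ with hBdef
    have hBij : ∀ i j, B i j = if 0 < A i j then 1 else 0 := by
      intro i j
      rw [hBdef, SimpleGraph.adjMatrix_apply]
      refine if_congr ?_ rfl rfl
      rw [level_adj hA]
      constructor
      · rintro ⟨_, h⟩; exact lt_of_lt_of_le hc0 h
      · intro h
        refine ⟨?_, hge i j h⟩
        rintro rfl
        rw [hA.diag] at h; exact lt_irrefl 0 h
    set A' : Matrix (Fin n) (Fin n) ℝ := fun i j => if 0 < A i j then A i j - c else 0 with hA'def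
    have hA'ij : ∀ i j, A' i j = if 0 < A i j then A i j - c else 0 := fun _ _ => rfl
    have hsplit : ∀ i j, A i j = A' i j + c * B i j := by
      intro i j
      rw [hA'ij, hBij]
      split_ifs with h
      · ring
      · have := hA.nonneg i j; push Not at h; linarith [le_antisymm h this]
    have hA' : IsWeighted A' := by
      refine ⟨?_, ?_, ?_⟩
      · refine Matrix.IsSymm.ext fun i j => ?_
        rw [hA'ij, hA'ij, hsy i j]
      · intro i j
        rw [hA'ij]; split_ifs with h
        · linarith [hge i j h]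
        · exact le_rfl
      · intro i
        rw [hA'ij, hA.diag]; simp
    have hsub : supp A' ⊆ (supp A).erase p0 := by
      intro p hp
      have h1 := mem_supp.mp hp
      have h2 : 0 < A p.1 p.2 := by
        by_contra h
        have := h1.2
        rw [hA'ij, if_neg h] at this
        exact lt_irrefl 0 this
      refine Finset.mem_erase.mpr ⟨?_, mem_supp.mpr ⟨h1.1, h2⟩⟩
      rintro rfl
      have := h1.2
      rw [hA'ij, if_pos h2] at this
      linarith
    have hcard : (supp A').card ≤ m := by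
      have h1 := Finset.card_le_card hsub
      rw [Finset.card_erase_of_mem hp0] at h1
      omega
    have hlev : ∀ t : ℝ, 0 < t → level A' t = level A (t + c) := by
      intro t ht
      ext i j
      rw [level_adj hA', level_adj hA, hA'ij]
      refine and_congr_right fun _ => ?_
      split_ifs with h
      · constructor <;> intro h' <;> linarith
      · constructor
        · intro h'; linarith
        · intro h'; exact absurd (lt_of_lt_of_le (by linarith) h') h
    obtain ⟨P', hP'c, hP'l, hP'⟩ := ih A' hA' hcard fun t ht => by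
      rw [hlev t ht]; exact hB _ (by linarith)
    have hcapcard : (P' ∩ supp A).card ≤ (k + 1).choose 2 := by
      rw [← hP'c]; exact Finset.card_le_card Finset.inter_subset_left
    obtain ⟨P, hP1, hP2, hP3⟩ := Finset.exists_subsuperset_card_eq
      (Finset.inter_subset_right : P' ∩ supp A ⊆ supp A) hcapcard hlt.le
    refine ⟨P, hP3, fun p hp => (mem_supp.mp (hP2 hp)).1, fun v hv => ?_⟩
    -- the sum over `P`
    have hPsum : c * ((k + 1).choose 2 : ℕ) + ∑ p ∈ P', A' p.1 p.2 ≤ ∑ p ∈ P, A p.1 p.2 := by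
      have e1 : ∑ p ∈ P, A p.1 p.2 = ∑ p ∈ P, A' p.1 p.2 + c * ((k + 1).choose 2 : ℕ) := by
        rw [Finset.sum_congr rfl (g := fun p => A' p.1 p.2 + c) fun p hp => ?_,
          Finset.sum_add_distrib, Finset.sum_const, hP3, nsmul_eq_mul]
        · ring
        · have := (mem_supp.mp (hP2 hp)).2
          rw [hA'ij, if_pos this]; ring
      have e2 : ∑ p ∈ P', A' p.1 p.2 = ∑ p ∈ P' ∩ supp A, A' p.1 p.2 := by
        symm
        refine Finset.sum_subset Finset.inter_subset_left fun p hp hpn => ?_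
        have hps : p ∉ supp A := fun h => hpn (Finset.mem_inter.mpr ⟨hp, h⟩)
        refine zero_off_supp hA' (hP'l p hp) fun h => hps ?_
        exact Finset.mem_of_mem_erase (hsub h)
      have e3 : ∑ p ∈ P' ∩ supp A, A' p.1 p.2 ≤ ∑ p ∈ P, A' p.1 p.2 :=
        Finset.sum_le_sum_of_subset_of_nonneg hP1 fun p _ _ => hA'.nonneg _ _
      rw [e1, e2]; linarith
    -- total
    have htot : total A = total A' + c * ((level A c).edgeFinset.card : ℝ) := by
      rw [← total_adj, total_eq hA, total_eq hA', total_eq (adj_weighted _)]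
      have : ∑ i, ∑ j, A i j = ∑ i, ∑ j, A' i j + c * ∑ i, ∑ j, B i j := by
        rw [Finset.mul_sum, ← Finset.sum_add_distrib]
        refine Finset.sum_congr rfl fun i _ => ?_
        rw [Finset.mul_sum, ← Finset.sum_add_distrib]
        exact Finset.sum_congr rfl fun j _ => hsplit i j
      rw [this, hBdef]; ring
    -- quadratic forms
    have hq : ∀ x, qf (lap A) x = qf (lap A') x + c * qf (lap B) x := by
      intro x
      rw [qf_lap hA, qf_lap hA', hBdef, qf_lap (adj_weighted _), ← hBdef]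
      have : ∑ i, ∑ j, A i j * (x i - x j) ^ 2 = ∑ i, ∑ j, A' i j * (x i - x j) ^ 2
          + c * ∑ i, ∑ j, B i j * (x i - x j) ^ 2 := by
        rw [Finset.mul_sum, ← Finset.sum_add_distrib]
        refine Finset.sum_congr rfl fun i _ => ?_
        rw [Finset.mul_sum, ← Finset.sum_add_distrib]
        refine Finset.sum_congr rfl fun j _ => ?_
        rw [hsplit i j]; ring
      rw [this]; ring
    have hBr : ∑ a, qf (lap B) (v a) ≤
        ((level A c).edgeFinset.card : ℝ) + ((k + 1).choose 2 : ℕ) := by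
      rw [hBdef, lap_adj]
      have hH : ((level A c).lapMatrix ℝ).IsHermitian := by
        have := (level A c).isSymm_lapMatrix (R := ℝ)
        rw [Matrix.IsHermitian, Matrix.conjTranspose_eq_transpose_of_trivial]
        exact this
      refine kyfan _ hH k hk _ (fun t ht => ?_) v hv
      exact hB c hc0 hH t ht
    rw [Finset.sum_congr rfl fun a _ => hq (v a), Finset.sum_add_distrib, ← Finset.mul_sum, htot]
    have h1 := hP' v hv
    have h2 := mul_le_mul_of_nonneg_left hBr hc0.le
    linarith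

theorem weighted_of_levels {A : Matrix (Fin n) (Fin n) ℝ} (hA : IsWeighted A) (k : ℕ) (hk : 1 ≤ k)
    (hkn : k + 1 ≤ n) (hB : ∀ t : ℝ, 0 < t → BrouwerIneq k (level A t)) : WeightedIneq k A := by
  intro hL s hs
  obtain ⟨P, h1, h2, h3⟩ := main_lemma k hk hkn _ A hA le_rfl hB
  exact ⟨P, h1, h2, eig_le_of_frames _ hL k _ h3 s hs⟩

end Pool.Agent.H340B
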