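import Pool.Agent.Y339.SB.Spec

/-!
# The signless Brouwer inequality by passing to the complement

Let `P` be an orthogonal projection of trace `k` on `ℝ^V`, `n = |V|`, `R = 1 - P`. For `i ≠ j`
the expression `R_ii + R_jj + 2 R_ij - 1` is minus the same expression for `P`. So the bound for
`P` and `G` follows from the bound for `R` and the complement of `G`.
-/

set_option autoImplicit false

open Finset

namespace Pool.Agent.H340B.Signless

open Pool.Agent.Y339.SB

variable {V : Type*} [Fintype V] [DecidableEq V]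

/-- the complementary projection -/
def co (P : V → V → ℝ) (i j : V) : ℝ := (if i = j then 1 else 0) - P i j

section

variable {P : V → V → ℝ} (hs : ∀ i j, P i j = P j i) (hid : ∀ i j, ∑ l, P i l * P l j = P i j)

include hs in
theorem co_symm (i j : V) : co P i j = co P j i := by
  unfold co
  rw [hs i j]
  by_cases h : i = j
  · rw [if_pos h, if_pos h.symm]
  · rw [if_neg h, if_neg (Ne.symm h)]

include hid in
theorem co_idem (i j : V) : ∑ l, co P i l * co P l j = co P i j := by
  unfold co
  have h1 : ∀ l, ((if i = l then (1 : ℝ) else 0) - P i l) * ((if l = j then (1 : ℝ) else 0) - P l j)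
      = (if i = l then (if l = j then (1 : ℝ) else 0) - P l j else 0)
        - (if l = j then P i l else 0) + P i l * P l j := by
    intro l
    by_cases h : i = l
    · subst h
      rw [if_pos rfl, if_pos rfl]
      split_ifs <;> ring
    · rw [if_neg h, if_neg h]
      split_ifs <;> ring
  rw [Finset.sum_congr rfl fun l _ => h1 l, Finset.sum_add_distrib, Finset.sum_sub_distrib,
    Finset.sum_ite_eq, if_pos (Finset.mem_univ i), Finset.sum_ite_eq', if_pos (Finset.mem_univ j),
    hid i j]
  ring

theorem co_trace : ∑ i, co P i i = (Fintype.card V : ℝ) - ∑ i, P i i := by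
  unfold co
  rw [Finset.sum_sub_distrib]
  simp

include hs hid in
theorem pair_nonneg (i j : V) : 0 ≤ P i i + P j j + 2 * P i j := by
  have h : P i i + P j j + 2 * P i j = ∑ l, (P i l + P j l) ^ 2 := by
    rw [← hid i i, ← hid j j, ← hid i j, Finset.mul_sum, ← Finset.sum_add_distrib,
      ← Finset.sum_add_distrib]
    refine Finset.sum_congr rfl fun l _ => ?_
    rw [hs l i, hs l j]; ring
  rw [h]
  exact Finset.sum_nonneg fun l _ => sq_nonneg _

/-- the total of the edge expression over all pairs of distinct vertices -/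
theorem total_all :
    ∑ i, ∑ j, (if i ≠ j then P i i + P j j + 2 * P i j - 1 else 0)
      = 2 * (Fintype.card V : ℝ) * ∑ i, P i i + 2 * ∑ i, ∑ j, P i j - (Fintype.card V : ℝ) ^ 2
        - 4 * ∑ i, P i i + (Fintype.card V : ℝ) := by
  have h1 : ∀ i, ∑ j, (if i ≠ j then P i i + P j j + 2 * P i j - 1 else 0)
      = ∑ j, (P i i + P j j + 2 * P i j - 1) - (4 * P i i - 1) := by
    intro i
    have h2 : ∀ j, (if i ≠ j then P i i + P j j + 2 * P i j - 1 else 0)
        = (P i i + P j j + 2 * P i j - 1) - (if i = j then 4 * P i i - 1 else 0) := by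
      intro j
      by_cases h : i = j
      · subst h; simp; ring
      · simp [h]
    rw [Finset.sum_congr rfl fun j _ => h2 j, Finset.sum_sub_distrib, Finset.sum_ite_eq,
      if_pos (Finset.mem_univ i)]
  rw [Finset.sum_congr rfl fun i _ => h1 i]
  simp only [Finset.sum_sub_distrib, Finset.sum_add_distrib, ← Finset.mul_sum, Finset.sum_const,
    Finset.card_univ, nsmul_eq_mul]
  ring

/-- the edge expression over the edges of `G`, in terms of the nonedges -/
theorem split_all (G : SimpleGraph V) [DecidableRel G.Adj] :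
    ∑ i, ∑ j, (if G.Adj i j then P i i + P j j + 2 * P i j - 1 else 0)
      = ∑ i, ∑ j, (if i ≠ j then P i i + P j j + 2 * P i j - 1 else 0)
        + ∑ i, ∑ j, (if i ≠ j ∧ ¬ G.Adj i j then 1 - (P i i + P j j + 2 * P i j) else 0) := by
  rw [← Finset.sum_add_distrib]
  refine Finset.sum_congr rfl fun i _ => ?_
  rw [← Finset.sum_add_distrib]
  refine Finset.sum_congr rfl fun j _ => ?_
  by_cases h : i = j
  · subst h; simp
  · by_cases h' : G.Adj i j
    · simp [h, h']
    · simp [h, h']

include hs hid in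
/-- the nonedges contribute at most what the starting inequality gives for `1 - P` -/
theorem nonedge_core (G : SimpleGraph V) [DecidableRel G.Adj] :
    ∑ i, ∑ j, (if i ≠ j ∧ ¬ G.Adj i j then 1 - (P i i + P j j + 2 * P i j) else 0)
      ≤ ((Fintype.card V : ℝ) - ∑ i, P i i) ^ 2 + ((Fintype.card V : ℝ) - ∑ i, P i i) + 1 := by
  have h := core (P := co P) (co_symm hs) (co_idem hid) (fun i j => i ≠ j ∧ ¬ G.Adj i j)
    (fun i hi => hi.1 rfl)
  rw [co_trace] at h
  have e : ∑ i, ∑ j, (if i ≠ j ∧ ¬ G.Adj i j then co P i i + co P j j + 2 * co P i j - 1 else 0)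
      = ∑ i, ∑ j, (if i ≠ j ∧ ¬ G.Adj i j then 1 - (P i i + P j j + 2 * P i j) else 0) := by
    refine Finset.sum_congr rfl fun i _ => Finset.sum_congr rfl fun j _ => ?_
    by_cases h' : i ≠ j ∧ ¬ G.Adj i j
    · rw [if_pos h', if_pos h']
      unfold co
      rw [if_pos rfl, if_pos rfl, if_neg h'.1]
      ring
    · rw [if_neg h', if_neg h']
  rw [e] at h
  nlinarith [sq_nonneg ((∑ i, co P i i * (1 - co P i i)) - 1)]

include hs hid in
/-- the trivial bound for the nonedges -/
theorem nonedge_trivial (G : SimpleGraph V) [DecidableRel G.Adj] :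
    ∑ i, ∑ j, (if i ≠ j ∧ ¬ G.Adj i j then 1 - (P i i + P j j + 2 * P i j) else 0)
      ≤ (Fintype.card V : ℝ) ^ 2 - (Fintype.card V : ℝ) - 2 * (G.edgeFinset.card : ℝ) := by
  have h1 : ∑ i, ∑ j, (if G.Adj i j then (1 : ℝ) else 0) = 2 * (G.edgeFinset.card : ℝ) := by
    have h := G.sum_degrees_eq_twice_card_edges
    have h' : ∑ v, (G.degree v : ℝ) = 2 * (G.edgeFinset.card : ℝ) := by exact_mod_cast h
    rw [← h']
    refine Finset.sum_congr rfl fun i _ => ?_
    rw [← SimpleGraph.card_neighborFinset_eq_degree, SimpleGraph.neighborFinset_eq_filter,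
      Finset.card_filter]
    push_cast
    rfl
  have h2 : ∑ i : V, ∑ j : V, (if i ≠ j ∧ ¬ G.Adj i j then (1 : ℝ) else 0)
      = ∑ i : V, ∑ j : V, ((1 : ℝ) - (if i = j then 1 else 0) - (if G.Adj i j then 1 else 0)) := by
    refine Finset.sum_congr rfl fun i _ => Finset.sum_congr rfl fun j _ => ?_
    by_cases h : i = j
    · subst h; simp
    · by_cases h' : G.Adj i j <;> simp [h, h']
  have h3 : ∑ i : V, ∑ j : V, (if i ≠ j ∧ ¬ G.Adj i j then (1 : ℝ) else 0)
      = (Fintype.card V : ℝ) ^ 2 - (Fintype.card V : ℝ) - 2 * (G.edgeFinset.card : ℝ) := by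
    rw [h2, ← h1]
    simp only [Finset.sum_sub_distrib, Finset.sum_const, Finset.card_univ, nsmul_eq_mul,
      Finset.sum_ite_eq, Finset.mem_univ, if_true]
    ring
  rw [← h3]
  refine Finset.sum_le_sum fun i _ => Finset.sum_le_sum fun j _ => ?_
  split_ifs
  · linarith [pair_nonneg hs hid i j]
  · exact le_rfl

include hs hid in
theorem ones_le : ∑ i, ∑ j, P i j ≤ (Fintype.card V : ℝ) := by
  have h := quad_le hs hid (fun _ => (1 : ℝ))
  simpa using h

end

/-- the bound from the complement, for every `k` -/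
theorem sum_le_core (G : SimpleGraph V) [DecidableRel G.Adj]
    (hQ : (G.degMatrix ℝ + G.adjMatrix ℝ).IsHermitian) (s : Finset V) :
    ∑ i ∈ s, hQ.eigenvalues i ≤ (G.edgeFinset.card : ℝ) + (s.card : ℝ) * ((s.card : ℝ) - 1) / 2
      + 2 * ((Fintype.card V : ℝ) - s.card) + 1 / 2 := by
  have h1 := two_sum_eig G hQ s
  have h2 := split_all (P := proj hQ s) G
  have h3 := total_all (P := proj hQ s)
  have h4 := nonedge_core (P := proj hQ s) (proj_symm hQ s) (proj_idem hQ s) G
  have h5 := ones_le (P := proj hQ s) (proj_symm hQ s) (proj_idem hQ s)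
  rw [proj_trace hQ s] at h3 h4
  nlinarith

/-- the bound from the trivial bound on the complement -/
theorem sum_le_trivial (G : SimpleGraph V) [DecidableRel G.Adj]
    (hQ : (G.degMatrix ℝ + G.adjMatrix ℝ).IsHermitian) (s : Finset V) :
    2 * ∑ i ∈ s, hQ.eigenvalues i
      ≤ 2 * (Fintype.card V : ℝ) * s.card + 2 * (Fintype.card V : ℝ) - 4 * s.card := by
  have h1 := two_sum_eig G hQ s
  have h2 := split_all (P := proj hQ s) G
  have h3 := total_all (P := proj hQ s)
  have h4 := nonedge_trivial (P := proj hQ s) (proj_symm hQ s) (proj_idem hQ s) G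
  have h5 := ones_le (P := proj hQ s) (proj_symm hQ s) (proj_idem hQ s)
  rw [proj_trace hQ s] at h3
  nlinarith

end Pool.Agent.H340B.Signless
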