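import Pool.Agent.H340B.SignlessSum
import Pool.Agent.H340B.Main

/-!
# The signless Brouwer inequality for graphs with a small edge cut
-/

set_option autoImplicit false

open Finset

namespace Pool.Agent.H340B.SignlessCut

open Pool.Agent.H340B Pool.Agent.H340B.SignlessSum

variable {n : ℕ}

theorem bessel_add {k : ℕ} (v : Fin k → Fin n → ℝ) (hv : Frame k v) (i j : Fin n) (hij : i ≠ j) :
    ∑ a, (v a i + v a j) ^ 2 ≤ 2 := by
  have h := bessel v hv (fun l => (if l = i then 1 else 0) + (if l = j then 1 else 0))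
  have h1 : ∀ a, ∑ l, v a l * ((if l = i then (1 : ℝ) else 0) + (if l = j then 1 else 0))
      = v a i + v a j := by
    intro a
    simp [mul_add, Finset.sum_add_distrib]
  have h2 : ∑ l, ((if l = i then (1 : ℝ) else 0) + (if l = j then 1 else 0)) ^ 2 = 2 := by
    have : ∀ l, ((if l = i then (1 : ℝ) else 0) + (if l = j then 1 else 0)) ^ 2
        = (if l = i then (1 : ℝ) else 0) + (if l = j then 1 else 0) := by
      intro l
      by_cases h1 : l = i
      · have h2 : l ≠ j := fun h => hij (h1.symm.trans h)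
        simp [h1, hij]
      · by_cases h2 : l = j
        · have h3 : j ≠ i := fun h => hij h.symm
          simp [h2, h3]
        · simp [h1, h2]
    rw [Finset.sum_congr rfl fun l _ => this l, Finset.sum_add_distrib]
    simp; norm_num
  rw [h2] at h
  rw [Finset.sum_congr rfl fun a _ => by rw [h1 a]] at h
  exact h

theorem count (G : SimpleGraph (Fin n)) [DecidableRel G.Adj] :
    ∑ i, ∑ j, (if G.Adj i j then (1 : ℝ) else 0) = 2 * (G.edgeFinset.card : ℝ) := by
  have h := G.sum_degrees_eq_twice_card_edges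
  have h' : ∑ v, (G.degree v : ℝ) = 2 * (G.edgeFinset.card : ℝ) := by exact_mod_cast h
  rw [← h']
  refine Finset.sum_congr rfl fun i _ => ?_
  rw [deg_eq]
  push_cast
  rfl

/-- twice the quadratic form of the signless Laplacian -/
theorem two_qf (G : SimpleGraph (Fin n)) [DecidableRel G.Adj] (x : Fin n → ℝ) :
    2 * qf (QQ G) x = ∑ i, ∑ j, (if G.Adj i j then (x i + x j) ^ 2 else 0) := by
  have h1 : qf (QQ G) x = ∑ i, ∑ j, (if G.Adj i j then x i ^ 2 + x i * x j else 0) := by
    unfold qf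
    refine Finset.sum_congr rfl fun i _ => ?_
    have e1 : ∀ j, (QQ G) i j * x i * x j
        = (if i = j then (G.degree i : ℝ) * x i ^ 2 else 0)
          + (if G.Adj i j then x i * x j else 0) := by
      intro j
      show (G.degMatrix ℝ + G.adjMatrix ℝ) i j * x i * x j = _
      rw [Matrix.add_apply, add_mul, add_mul]
      congr 1
      · unfold SimpleGraph.degMatrix
        rw [Matrix.diagonal_apply]
        split_ifs with h
        · rw [← h]; ring
        · simp
      · rw [SimpleGraph.adjMatrix_apply]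
        split_ifs <;> simp
    rw [Finset.sum_congr rfl fun j _ => e1 j, Finset.sum_add_distrib, Finset.sum_ite_eq,
      if_pos (Finset.mem_univ i), deg_eq]
    push_cast
    rw [Finset.sum_mul, ← Finset.sum_add_distrib]
    refine Finset.sum_congr rfl fun j _ => ?_
    split_ifs <;> ring
  have h3 : ∑ i, ∑ j, (if G.Adj i j then x i ^ 2 + x i * x j else 0)
      = ∑ i, ∑ j, (if G.Adj i j then x j ^ 2 + x i * x j else 0) := by
    rw [Finset.sum_comm]
    refine Finset.sum_congr rfl fun i _ => Finset.sum_congr rfl fun j _ => ?_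
    by_cases h : G.Adj i j
    · rw [if_pos h, if_pos h.symm]; ring
    · rw [if_neg h, if_neg (fun h' => h h'.symm)]
  have h4 : 2 * qf (QQ G) x = ∑ i, ∑ j, (if G.Adj i j then x i ^ 2 + x i * x j else 0)
      + ∑ i, ∑ j, (if G.Adj i j then x j ^ 2 + x i * x j else 0) := by
    rw [← h3, ← h1]; ring
  rw [h4, ← Finset.sum_add_distrib]
  refine Finset.sum_congr rfl fun i _ => ?_
  rw [← Finset.sum_add_distrib]
  refine Finset.sum_congr rfl fun j _ => ?_
  split_ifs <;> ring

/-- `G` without the edges between the two sides -/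
def inner (G : SimpleGraph (Fin n)) (p : Fin n → Prop) : SimpleGraph (Fin n) where
  Adj x y := G.Adj x y ∧ (p x ↔ p y)
  symm := ⟨fun _ _ h => ⟨h.1.symm, h.2.symm⟩⟩
  loopless := ⟨fun _ h => G.loopless.irrefl _ h.1⟩

instance (G : SimpleGraph (Fin n)) [DecidableRel G.Adj] (p : Fin n → Prop) [DecidablePred p] :
    DecidableRel (inner G p).Adj := fun x y =>
  inferInstanceAs (Decidable (G.Adj x y ∧ (p x ↔ p y)))

theorem card_eq_of_eq {W : Type} [Fintype W] [DecidableEq W] (G₁ G₂ : SimpleGraph W)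
    [DecidableRel G₁.Adj] [DecidableRel G₂.Adj] (h : G₁ = G₂) :
    G₁.edgeFinset.card = G₂.edgeFinset.card := by
  have e : G₁.edgeFinset = G₂.edgeFinset := by
    ext x
    rw [SimpleGraph.mem_edgeFinset, SimpleGraph.mem_edgeFinset, h]
  rw [e]

theorem part_inner (G : SimpleGraph (Fin n)) (p : Fin n → Prop) :
    part (inner G p) p = part G p := by
  ext x y
  show (G.Adj x.1 y.1 ∧ (p x.1 ↔ p y.1)) ↔ G.Adj x.1 y.1
  exact ⟨fun h => h.1, fun h => ⟨h, iff_of_true x.2 y.2⟩⟩

theorem part_inner' (G : SimpleGraph (Fin n)) (p : Fin n → Prop) :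
    part (inner G p) (fun x => ¬ p x) = part G (fun x => ¬ p x) := by
  ext x y
  show (G.Adj x.1 y.1 ∧ (p x.1 ↔ p y.1)) ↔ G.Adj x.1 y.1
  exact ⟨fun h => h.1, fun h => ⟨h, iff_of_false x.2 y.2⟩⟩

theorem bound (G : SimpleGraph (Fin n)) [DecidableRel G.Adj] (p : Fin n → Prop) [DecidablePred p]
    (hQ : (QQ G).IsHermitian) (s : Finset (Fin n)) (e : ℕ)
    (he : G.edgeFinset.card = (part G p).edgeFinset.card
      + (part G (fun x => ¬ p x)).edgeFinset.card + e)
    (h₁ : e + 1 ≤ (part G p).edgeFinset.card) (h₂ : e + 1 ≤ (part G (fun x => ¬ p x)).edgeFinset.card)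
    (hk : s.card ≤ 1 ∨ e + 2 ≤ s.card) :
    ∑ i ∈ s, hQ.eigenvalues i
      ≤ (G.edgeFinset.card : ℝ) + (s.card : ℝ) * ((s.card : ℝ) + 1) / 2 := by
  rcases Nat.eq_zero_or_pos s.card with h0 | h0
  · have hs : s = ∅ := Finset.card_eq_zero.1 h0
    subst hs
    simp
  set m₁ := (part G p).edgeFinset.card with hm₁
  set m₂ := (part G (fun x => ¬ p x)).edgeFinset.card with hm₂
  set k := s.card with hkdef
  have hp : ∀ x y, (inner G p).Adj x y → (p x ↔ p y) := fun x y h => h.2
  have g₁ : (part (inner G p) p).edgeFinset.card = m₁ := card_eq_of_eq _ _ (part_inner G p)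
  have g₂ : (part (inner G p) (fun x => ¬ p x)).edgeFinset.card = m₂ :=
    card_eq_of_eq _ _ (part_inner' G p)
  have gE : (inner G p).edgeFinset.card = m₁ + m₂ := by
    rw [edges_part (inner G p) p hp, g₁, g₂]
  have heR : (G.edgeFinset.card : ℝ) = (m₁ : ℝ) + m₂ + e := by exact_mod_cast he
  have h₁R : (e : ℝ) + 1 ≤ m₁ := by exact_mod_cast h₁
  have h₂R : (e : ℝ) + 1 ≤ m₂ := by exact_mod_cast h₂
  have hkR : (1 : ℝ) ≤ k := by exact_mod_cast h0
  -- the graph without the cut
  have hin : ∀ t : Finset (Fin n), t.card = k →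
      ∑ i ∈ t, (herm (inner G p)).eigenvalues i
        ≤ (m₁ : ℝ) + m₂ - e + (k : ℝ) * ((k : ℝ) + 1) / 2 := by
    intro t htk
    obtain ⟨s₁, s₂, hsum, hcard⟩ := split_sum (inner G p) p hp (herm (inner G p)) t
    have b₁ := half (part (inner G p) p) (herm (part (inner G p) p)) s₁
    have b₂ := half (part (inner G p) (fun x => ¬ p x))
      (herm (part (inner G p) (fun x => ¬ p x))) s₂
    rw [g₁] at b₁
    rw [g₂] at b₂
    rw [htk] at hcard
    have hc' : (k : ℝ) = (s₁.card : ℝ) + (s₂.card : ℝ) := by exact_mod_cast hcard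
    rw [hsum]
    rcases Nat.eq_zero_or_pos s₁.card with c₁ | c₁
    · have e₁ : s₁ = ∅ := Finset.card_eq_zero.1 c₁
      have c₁' : (s₁.card : ℝ) = 0 := by exact_mod_cast c₁
      rw [c₁', zero_add] at hc'
      rw [← hc'] at b₂
      rw [e₁, Finset.sum_empty]
      linarith
    rcases Nat.eq_zero_or_pos s₂.card with c₂ | c₂
    · have e₂ : s₂ = ∅ := Finset.card_eq_zero.1 c₂
      have c₂' : (s₂.card : ℝ) = 0 := by exact_mod_cast c₂
      rw [c₂', add_zero] at hc'
      rw [← hc'] at b₁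
      rw [e₂, Finset.sum_empty]
      linarith
    have hk2 : e + 2 ≤ k := by omega
    have hk2R : (e : ℝ) + 2 ≤ k := by exact_mod_cast hk2
    have c₁' : (1 : ℝ) ≤ (s₁.card : ℝ) := by exact_mod_cast c₁
    have c₂' : (1 : ℝ) ≤ (s₂.card : ℝ) := by exact_mod_cast c₂
    rw [hc'] at hk2R ⊢
    nlinarith [mul_nonneg (sub_nonneg.2 c₁') (sub_nonneg.2 c₂')]
  -- the cut
  refine eig_le_of_frames (QQ G) hQ k _ ?_ s rfl
  intro v hv
  have hky := kyfan (QQ (inner G p)) (herm (inner G p)) k h0 _ hin v hv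
  have hcut : ∀ x : Fin n → ℝ, 2 * qf (QQ G) x = 2 * qf (QQ (inner G p)) x
      + ∑ i, ∑ j, (if G.Adj i j ∧ ¬ (p i ↔ p j) then (x i + x j) ^ 2 else 0) := by
    intro x
    rw [two_qf, two_qf, ← Finset.sum_add_distrib]
    refine Finset.sum_congr rfl fun i _ => ?_
    rw [← Finset.sum_add_distrib]
    refine Finset.sum_congr rfl fun j _ => ?_
    have hA : (inner G p).Adj i j ↔ G.Adj i j ∧ (p i ↔ p j) := Iff.rfl
    by_cases ha : G.Adj i j <;> by_cases hb : (p i ↔ p j) <;> simp [hA, ha, hb]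
  have hcnt : ∑ i, ∑ j, (if G.Adj i j ∧ ¬ (p i ↔ p j) then (2 : ℝ) else 0) = 4 * e := by
    have c1 := count G
    have c2 := count (inner G p)
    have c3 : ∑ i, ∑ j, (if G.Adj i j ∧ ¬ (p i ↔ p j) then (2 : ℝ) else 0)
        = 2 * ∑ i, ∑ j, (if G.Adj i j then (1 : ℝ) else 0)
          - 2 * ∑ i, ∑ j, (if (inner G p).Adj i j then (1 : ℝ) else 0) := by
      rw [Finset.mul_sum, Finset.mul_sum, ← Finset.sum_sub_distrib]
      refine Finset.sum_congr rfl fun i _ => ?_
      rw [Finset.mul_sum, Finset.mul_sum, ← Finset.sum_sub_distrib]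
      refine Finset.sum_congr rfl fun j _ => ?_
      have hA : (inner G p).Adj i j ↔ G.Adj i j ∧ (p i ↔ p j) := Iff.rfl
      by_cases ha : G.Adj i j <;> by_cases hb : (p i ↔ p j) <;> simp [hA, ha, hb]
    rw [c3, c1, c2, heR, gE]
    push_cast
    ring
  have hfr : ∑ a, ∑ i, ∑ j, (if G.Adj i j ∧ ¬ (p i ↔ p j) then (v a i + v a j) ^ 2 else 0)
      ≤ 4 * e := by
    rw [← hcnt, Finset.sum_comm]
    refine Finset.sum_le_sum fun i _ => ?_
    rw [Finset.sum_comm]
    refine Finset.sum_le_sum fun j _ => ?_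
    by_cases ha : G.Adj i j ∧ ¬ (p i ↔ p j)
    · simp only [if_pos ha]
      exact bessel_add v hv i j ha.1.ne
    · simp only [if_neg ha]
      simp
  have htot : 2 * ∑ a, qf (QQ G) (v a) = 2 * ∑ a, qf (QQ (inner G p)) (v a)
      + ∑ a, ∑ i, ∑ j, (if G.Adj i j ∧ ¬ (p i ↔ p j) then (v a i + v a j) ^ 2 else 0) := by
    rw [Finset.mul_sum, Finset.mul_sum, ← Finset.sum_add_distrib]
    exact Finset.sum_congr rfl fun a _ => hcut (v a)
  rw [heR]
  linarith

end Pool.Agent.H340B.SignlessCut
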