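import Pool.Agent.H340B.Signless
import Pool.Agent.Helper237.Brouwer.Spec

/-!
# The signless Brouwer inequality for graphs with two nontrivial parts
-/

set_option autoImplicit false

open Finset

namespace Pool.Agent.H340B.SignlessSum

open Pool.Agent.Y339.SB

variable {V : Type} [Fintype V] [DecidableEq V]

theorem herm (G : SimpleGraph V) [DecidableRel G.Adj] :
    (G.degMatrix ℝ + G.adjMatrix ℝ).IsHermitian := by
  ext i j
  rw [Matrix.conjTranspose_apply, star_trivial, Matrix.add_apply, Matrix.add_apply]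
  unfold SimpleGraph.degMatrix
  rw [Matrix.diagonal_apply, Matrix.diagonal_apply, SimpleGraph.adjMatrix_apply,
    SimpleGraph.adjMatrix_apply]
  have h1 : G.Adj j i ↔ G.Adj i j := G.adj_comm j i
  simp only [h1]
  by_cases h : i = j
  · subst h; rfl
  · rw [if_neg h, if_neg (Ne.symm h)]

theorem half (G : SimpleGraph V) [DecidableRel G.Adj]
    (hQ : (G.degMatrix ℝ + G.adjMatrix ℝ).IsHermitian) (s : Finset V) :
    ∑ i ∈ s, hQ.eigenvalues i
      ≤ (G.edgeFinset.card : ℝ) + (s.card : ℝ) * ((s.card : ℝ) + 1) / 2 + 1 / 2 := by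
  have h1 := two_sum_eig G hQ s
  have h2 := core (P := proj hQ s) (proj_symm hQ s) (proj_idem hQ s) G.Adj
    (fun i => G.loopless.irrefl i)
  rw [proj_trace hQ s] at h2
  have h3 : 2 * ∑ i, proj hQ s i i * (1 - proj hQ s i i)
      - (∑ i, proj hQ s i i * (1 - proj hQ s i i)) ^ 2 ≤ 1 := by
    nlinarith [sq_nonneg ((∑ i, proj hQ s i i * (1 - proj hQ s i i)) - 1)]
  nlinarith

theorem deg_eq (G : SimpleGraph V) [DecidableRel G.Adj] (i : V) :
    G.degree i = ∑ j, (if G.Adj i j then 1 else 0) := by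
  rw [← SimpleGraph.card_neighborFinset_eq_degree, SimpleGraph.neighborFinset_eq_filter,
    Finset.card_filter]

section part

variable (F : SimpleGraph V) [DecidableRel F.Adj] (p : V → Prop) [DecidablePred p]
  (hp : ∀ x y, F.Adj x y → (p x ↔ p y))

/-- the part of `F` on the vertices satisfying `p` -/
abbrev part (F : SimpleGraph V) (p : V → Prop) : SimpleGraph {x // p x} := F.comap Subtype.val

include hp in
theorem degree_part (a : {x // p x}) : (part F p).degree a = F.degree a.1 := by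
  rw [deg_eq, deg_eq, ← Fintype.sum_subtype_add_sum_subtype p (fun j => if F.Adj a.1 j then 1 else 0)]
  have h : ∑ j : {x // ¬ p x}, (if F.Adj a.1 j.1 then 1 else 0) = 0 := by
    refine Finset.sum_eq_zero fun j _ => ?_
    rw [if_neg]
    intro h
    exact j.2 ((hp _ _ h).1 a.2)
  rw [h, add_zero]
  rfl

include hp in
theorem degree_part' (a : {x // ¬ p x}) : (part F (fun x => ¬ p x)).degree a = F.degree a.1 :=
  degree_part F (fun x => ¬ p x) (fun x y h => not_congr (hp x y h)) a

include hp in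
theorem edges_part : F.edgeFinset.card
    = (part F p).edgeFinset.card + (part F (fun x => ¬ p x)).edgeFinset.card := by
  have h := F.sum_degrees_eq_twice_card_edges
  have h1 := (part F p).sum_degrees_eq_twice_card_edges
  have h2 := (part F (fun x => ¬ p x)).sum_degrees_eq_twice_card_edges
  rw [← Fintype.sum_subtype_add_sum_subtype p (fun j => F.degree j)] at h
  have e1 : ∑ a : {x // p x}, F.degree a.1 = ∑ a, (part F p).degree a :=
    Finset.sum_congr rfl fun a _ => (degree_part F p hp a).symm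
  have e2 : ∑ a : {x // ¬ p x}, F.degree a.1 = ∑ a, (part F (fun x => ¬ p x)).degree a :=
    Finset.sum_congr rfl fun a _ => (degree_part' F p hp a).symm
  rw [e1, e2, h1, h2] at h
  omega

/-- the signless Laplacian -/
noncomputable abbrev QQ {W : Type} [Fintype W] [DecidableEq W] (G : SimpleGraph W)
    [DecidableRel G.Adj] : Matrix W W ℝ :=
  G.degMatrix ℝ + G.adjMatrix ℝ

include hp in
theorem charpoly_part : (QQ F).charpoly
    = (QQ (part F p)).charpoly * (QQ (part F (fun x => ¬ p x))).charpoly := by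
  have h : Matrix.reindex (Equiv.sumCompl p).symm (Equiv.sumCompl p).symm (QQ F)
      = Matrix.fromBlocks (QQ (part F p)) 0 0 (QQ (part F (fun x => ¬ p x))) := by
    ext a b
    rcases a with a | a <;> rcases b with b | b
    · simp only [Matrix.reindex_apply, Matrix.submatrix_apply, Equiv.symm_symm,
        Equiv.sumCompl_apply_inl, Matrix.fromBlocks_apply₁₁, Matrix.add_apply]
      unfold SimpleGraph.degMatrix
      rw [Matrix.diagonal_apply, Matrix.diagonal_apply, SimpleGraph.adjMatrix_apply,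
        SimpleGraph.adjMatrix_apply, degree_part F p hp a]
      simp only [Subtype.ext_iff, SimpleGraph.comap_adj]
    · have h1 : ¬ F.Adj a.1 b.1 := fun h => b.2 ((hp _ _ h).1 a.2)
      have h2 : a.1 ≠ b.1 := fun h => b.2 (h ▸ a.2)
      simp only [Matrix.reindex_apply, Matrix.submatrix_apply, Equiv.symm_symm,
        Equiv.sumCompl_apply_inl, Equiv.sumCompl_apply_inr, Matrix.fromBlocks_apply₁₂,
        Matrix.add_apply, Matrix.zero_apply]
      unfold SimpleGraph.degMatrix
      rw [Matrix.diagonal_apply, SimpleGraph.adjMatrix_apply, if_neg h2, if_neg h1, add_zero]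
    · have h1 : ¬ F.Adj a.1 b.1 := fun h => a.2 ((hp _ _ h).2 b.2)
      have h2 : a.1 ≠ b.1 := fun h => a.2 (h ▸ b.2)
      simp only [Matrix.reindex_apply, Matrix.submatrix_apply, Equiv.symm_symm,
        Equiv.sumCompl_apply_inl, Equiv.sumCompl_apply_inr, Matrix.fromBlocks_apply₂₁,
        Matrix.add_apply, Matrix.zero_apply]
      unfold SimpleGraph.degMatrix
      rw [Matrix.diagonal_apply, SimpleGraph.adjMatrix_apply, if_neg h2, if_neg h1, add_zero]
    · simp only [Matrix.reindex_apply, Matrix.submatrix_apply, Equiv.symm_symm,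
        Equiv.sumCompl_apply_inr, Matrix.fromBlocks_apply₂₂, Matrix.add_apply]
      unfold SimpleGraph.degMatrix
      rw [Matrix.diagonal_apply, Matrix.diagonal_apply, SimpleGraph.adjMatrix_apply,
        SimpleGraph.adjMatrix_apply, degree_part' F p hp a]
      simp only [Subtype.ext_iff, SimpleGraph.comap_adj]
  rw [← Matrix.charpoly_reindex (Equiv.sumCompl p).symm (QQ F), h,
    Matrix.charpoly_fromBlocks_zero₁₂]

include hp in
theorem split_sum (hQ : (QQ F).IsHermitian) (s : Finset V) :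
    ∃ (s₁ : Finset {x // p x}) (s₂ : Finset {x // ¬ p x}),
      ∑ i ∈ s, hQ.eigenvalues i = ∑ i ∈ s₁, (herm (part F p)).eigenvalues i
        + ∑ i ∈ s₂, (herm (part F (fun x => ¬ p x))).eigenvalues i ∧
      s.card = s₁.card + s₂.card := by
  classical
  set M₁ := (QQ (part F p)).charpoly.roots with hM₁
  set M₂ := (QQ (part F (fun x => ¬ p x))).charpoly.roots with hM₂
  set t : Multiset ℝ := s.val.map (RCLike.ofReal ∘ hQ.eigenvalues) with ht
  have hr : (QQ F).charpoly.roots = M₁ + M₂ := by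
    rw [charpoly_part F p hp, Polynomial.roots_mul]
    exact mul_ne_zero (Matrix.charpoly_monic _).ne_zero (Matrix.charpoly_monic _).ne_zero
  have hle : t ≤ M₁ + M₂ := by
    rw [← hr, hQ.roots_charpoly_eq_eigenvalues]
    exact Multiset.map_le_map (Finset.val_le_iff.2 (Finset.subset_univ s))
  have h1 : t ∩ M₁ ≤ M₁ := Multiset.inter_le_right
  have h2 : t - M₁ ≤ M₂ := tsub_le_iff_left.2 hle
  have h3 : t - M₁ + t ∩ M₁ = t := Multiset.sub_add_inter t M₁
  have h1' := h1.trans (le_of_eq (herm (part F p)).roots_charpoly_eq_eigenvalues)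
  have h2' := h2.trans (le_of_eq (herm (part F (fun x => ¬ p x))).roots_charpoly_eq_eigenvalues)
  obtain ⟨u₁, hu₁, e₁⟩ := Pool.Helper237.Brouwer.exists_le_of_le_map _ _ _ h1'
  obtain ⟨u₂, hu₂, e₂⟩ := Pool.Helper237.Brouwer.exists_le_of_le_map _ _ _ h2'
  refine ⟨⟨u₁, Multiset.nodup_of_le hu₁ Finset.univ.nodup⟩,
    ⟨u₂, Multiset.nodup_of_le hu₂ Finset.univ.nodup⟩, ?_, ?_⟩
  · have hs : ∑ i ∈ s, hQ.eigenvalues i = t.sum := rfl
    rw [hs, ← h3, Multiset.sum_add, add_comm]
    congr 1
    · rw [e₁]; rfl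
    · rw [e₂]; rfl
  · have hs : s.card = t.card := by rw [ht, Multiset.card_map]; rfl
    rw [hs, ← h3, Multiset.card_add, add_comm]
    congr 1
    · rw [e₁, Multiset.card_map]; rfl
    · rw [e₂, Multiset.card_map]; rfl

include hp in
/-- both parts contain an edge -/
theorem bound (hQ : (QQ F).IsHermitian) (s : Finset V)
    (h₁ : ∃ x y, F.Adj x y ∧ p x) (h₂ : ∃ x y, F.Adj x y ∧ ¬ p x) :
    ∑ i ∈ s, hQ.eigenvalues i
      ≤ (F.edgeFinset.card : ℝ) + (s.card : ℝ) * ((s.card : ℝ) + 1) / 2 := by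
  obtain ⟨s₁, s₂, hsum, hcard⟩ := split_sum F p hp hQ s
  have hE := edges_part F p hp
  have b₁ := half (part F p) (herm (part F p)) s₁
  have b₂ := half (part F (fun x => ¬ p x)) (herm (part F (fun x => ¬ p x))) s₂
  have m₁ : 1 ≤ (part F p).edgeFinset.card := by
    obtain ⟨x, y, hxy, hx⟩ := h₁
    rw [Nat.succ_le_iff, Finset.card_pos]
    refine ⟨s((⟨x, hx⟩ : {x // p x}), ⟨y, (hp _ _ hxy).1 hx⟩), ?_⟩
    rw [SimpleGraph.mem_edgeFinset, SimpleGraph.mem_edgeSet]
    exact hxy
  have m₂ : 1 ≤ (part F (fun x => ¬ p x)).edgeFinset.card := by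
    obtain ⟨x, y, hxy, hx⟩ := h₂
    rw [Nat.succ_le_iff, Finset.card_pos]
    refine ⟨s((⟨x, hx⟩ : {x // ¬ p x}), ⟨y, fun hy => hx ((hp _ _ hxy).2 hy)⟩), ?_⟩
    rw [SimpleGraph.mem_edgeFinset, SimpleGraph.mem_edgeSet]
    exact hxy
  have hE' : (F.edgeFinset.card : ℝ) = ((part F p).edgeFinset.card : ℝ)
      + ((part F (fun x => ¬ p x)).edgeFinset.card : ℝ) := by exact_mod_cast hE
  have hc' : (s.card : ℝ) = (s₁.card : ℝ) + (s₂.card : ℝ) := by exact_mod_cast hcard
  have m₁' : (1 : ℝ) ≤ ((part F p).edgeFinset.card : ℝ) := by exact_mod_cast m₁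
  have m₂' : (1 : ℝ) ≤ ((part F (fun x => ¬ p x)).edgeFinset.card : ℝ) := by exact_mod_cast m₂
  rw [hsum, hE', hc']
  rcases Nat.eq_zero_or_pos s₁.card with c₁ | c₁
  · have e : s₁ = ∅ := Finset.card_eq_zero.1 c₁
    have c₁' : (s₁.card : ℝ) = 0 := by exact_mod_cast c₁
    rw [c₁']
    rw [e, Finset.sum_empty]
    linarith
  rcases Nat.eq_zero_or_pos s₂.card with c₂ | c₂
  · have e : s₂ = ∅ := Finset.card_eq_zero.1 c₂
    have c₂' : (s₂.card : ℝ) = 0 := by exact_mod_cast c₂
    rw [c₂']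
    rw [e, Finset.sum_empty]
    linarith
  have c₁' : (1 : ℝ) ≤ (s₁.card : ℝ) := by exact_mod_cast c₁
  have c₂' : (1 : ℝ) ≤ (s₂.card : ℝ) := by exact_mod_cast c₂
  nlinarith [mul_nonneg (sub_nonneg.2 c₁') (sub_nonneg.2 c₂')]

end part

end Pool.Agent.H340B.SignlessSum
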