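import Pool.Agent.H340B.Main

/-!
# The unconditional cases `k = 1`, `k = n - 1`, `k = n - 2`
-/

set_option autoImplicit false

open Finset

namespace Pool.Agent.H340B

variable {n : ℕ}

theorem lap_mulVec (A : Matrix (Fin n) (Fin n) ℝ) (x : Fin n → ℝ) (u : Fin n) :
    ∑ l, lap A u l * x l = ∑ w, A u w * (x u - x w) := by
  unfold lap
  have : ∀ l, (Matrix.diagonal (fun i => ∑ j, A i j) - A) u l * x l
      = (if u = l then (∑ j, A u j) * x l else 0) - A u l * x l := by
    intro l
    rw [Matrix.sub_apply, Matrix.diagonal_apply]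
    split_ifs with h <;> ring
  rw [Finset.sum_congr rfl fun l _ => this l, Finset.sum_sub_distrib, Finset.sum_ite_eq univ u,
    if_pos (Finset.mem_univ _), Finset.sum_mul, ← Finset.sum_sub_distrib]
  exact Finset.sum_congr rfl fun l _ => by ring

theorem two_degrees {A : Matrix (Fin n) (Fin n) ℝ} (hA : IsWeighted A) (u v : Fin n)
    (huv : u ≠ v) : ∑ w, A u w + ∑ w, A v w ≤ total A + A u v := by
  have hs : ∀ i j, A j i = A i j := fun i j => hA.symm.apply i j
  have h0 : ∀ i, 0 ≤ ∑ w, A i w - A i u - A i v := by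
    intro i
    have h1 : ∑ w ∈ ({u, v} : Finset (Fin n)), A i w ≤ ∑ w, A i w :=
      Finset.sum_le_sum_of_subset_of_nonneg (Finset.subset_univ _) fun w _ _ => hA.nonneg i w
    rw [Finset.sum_pair huv] at h1
    linarith
  have h1 : ∑ i ∈ ({u, v} : Finset (Fin n)), (∑ w, A i w - A i u - A i v)
      ≤ ∑ i, (∑ w, A i w - A i u - A i v) :=
    Finset.sum_le_sum_of_subset_of_nonneg (Finset.subset_univ _) fun i _ _ => h0 i
  rw [Finset.sum_pair huv, Finset.sum_sub_distrib, Finset.sum_sub_distrib, hA.diag, hA.diag] at h1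
  have h2 : ∑ i, A i u = ∑ w, A u w := Finset.sum_congr rfl fun i _ => hs u i
  have h3 : ∑ i, A i v = ∑ w, A v w := Finset.sum_congr rfl fun i _ => hs v i
  rw [h2, h3, hs u v] at h1
  rw [total_eq hA]
  linarith

theorem total_nonneg {A : Matrix (Fin n) (Fin n) ℝ} (hA : IsWeighted A) : 0 ≤ total A := by
  rw [total_eq_pairs]
  exact Finset.sum_nonneg fun p _ => hA.nonneg _ _

theorem anderson_morley {A : Matrix (Fin n) (Fin n) ℝ} (hA : IsWeighted A) (hn : 2 ≤ n)
    (hL : (lap A).IsHermitian) (i : Fin n) :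
    ∃ p : Fin n × Fin n, p.1 < p.2 ∧ hL.eigenvalues i ≤ total A + A p.1 p.2 := by
  classical
  have hs : ∀ i j, A j i = A i j := fun i j => hA.symm.apply i j
  set x : Fin n → ℝ := fun j => hL.eigenvectorBasis i j with hx
  set lam := hL.eigenvalues i with hlam
  have eig : ∀ u, ∑ w, A u w * (x u - x w) = lam * x u := by
    intro u
    rw [← lap_mulVec]
    have := congrFun (hL.mulVec_eigenvectorBasis i) u
    simpa [Matrix.mulVec, dotProduct] using this
  have hx0 : ∃ u, x u ≠ 0 := by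
    by_contra h
    push Not at h
    have h1 : hL.eigenvectorBasis i = 0 := by
      ext j; simpa using h j
    have h2 := hL.eigenvectorBasis.orthonormal.1 i
    rw [h1] at h2
    simp at h2
  by_cases hc : ∀ u v, 0 < A u v → x u = x v
  · obtain ⟨u, hu⟩ := hx0
    have h1 : lam * x u = 0 := by
      rw [← eig u]
      refine Finset.sum_eq_zero fun w _ => ?_
      rcases (hA.nonneg u w).lt_or_eq with h | h
      · rw [hc u w h]; ring
      · rw [← h]; ring
    have h2 : lam = 0 := by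
      rcases mul_eq_zero.mp h1 with h | h
      · exact h
      · exact absurd h hu
    refine ⟨(⟨0, by omega⟩, ⟨1, by omega⟩), by simp [Fin.lt_def], ?_⟩
    rw [h2]
    have := total_nonneg hA
    have := hA.nonneg ⟨0, by omega⟩ ⟨1, by omega⟩
    linarith
  · push Not at hc
    obtain ⟨u1, v1, h1, h1'⟩ := hc
    have hne : (univ.filter fun p : Fin n × Fin n => 0 < A p.1 p.2).Nonempty :=
      ⟨(u1, v1), by simpa using h1⟩
    obtain ⟨⟨u, v⟩, hp, hmax⟩ := Finset.exists_max_image _
      (fun p : Fin n × Fin n => |x p.1 - x p.2|) hne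
    have hAuv : 0 < A u v := by simpa using hp
    set δ := |x u - x v| with hδ
    have hmax' : ∀ a b, 0 < A a b → |x a - x b| ≤ δ := fun a b h =>
      hmax (a, b) (by simpa using h)
    have hδ0 : 0 < δ := lt_of_lt_of_le (abs_pos.mpr (sub_ne_zero.mpr h1')) (hmax' u1 v1 h1)
    have hb : ∀ a, |∑ w, A a w * (x a - x w)| ≤ (∑ w, A a w) * δ := by
      intro a
      rw [Finset.sum_mul]
      refine (Finset.abs_sum_le_sum_abs _ _).trans (Finset.sum_le_sum fun w _ => ?_)
      rw [abs_mul, abs_of_nonneg (hA.nonneg a w)]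
      rcases (hA.nonneg a w).lt_or_eq with h | h
      · exact mul_le_mul_of_nonneg_left (hmax' a w h) h.le
      · rw [← h]; simp
    have h2 : lam * (x u - x v) = ∑ w, A u w * (x u - x w) - ∑ w, A v w * (x v - x w) := by
      rw [eig, eig]; ring
    have h3 : |lam| * δ ≤ (∑ w, A u w + ∑ w, A v w) * δ := by
      rw [hδ, ← abs_mul, h2, ← hδ]
      refine (abs_sub _ _).trans ?_
      rw [add_mul]
      exact add_le_add (hb u) (hb v)
    have h4 : |lam| ≤ ∑ w, A u w + ∑ w, A v w := le_of_mul_le_mul_right h3 hδ0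
    have huv : u ≠ v := by
      rintro rfl
      rw [hA.diag] at hAuv; exact lt_irrefl 0 hAuv
    have h5 := two_degrees hA u v huv
    rcases lt_or_gt_of_ne huv with h | h
    · exact ⟨(u, v), h, (le_abs_self _).trans (h4.trans h5)⟩
    · refine ⟨(v, u), h, ?_⟩
      change lam ≤ total A + A v u
      rw [hs u v]
      exact (le_abs_self _).trans (h4.trans h5)

theorem weighted_one {A : Matrix (Fin n) (Fin n) ℝ} (hA : IsWeighted A) (hn : 2 ≤ n) :
    WeightedIneq 1 A := by
  intro hL s hs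
  obtain ⟨i, rfl⟩ := Finset.card_eq_one.mp hs
  obtain ⟨p, hp, h⟩ := anderson_morley hA hn hL i
  refine ⟨{p}, by simp, by simpa using hp, ?_⟩
  rw [Finset.sum_singleton, Finset.sum_singleton]
  exact h

theorem weighted_top {A : Matrix (Fin n) (Fin n) ℝ} (hA : IsWeighted A) (hn : 2 ≤ n) :
    WeightedIneq (n - 1) A := by
  intro hL s hs
  obtain ⟨P, h1, h2, h3⟩ := few_edges hA (n - 1) (by omega) (by
    rw [show n - 1 + 1 = n by omega, ← card_pairs]
    exact Finset.card_le_card (Finset.filter_subset _ _))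
  exact ⟨P, h1, h2, eig_le_of_frames _ hL _ _ h3 s hs⟩

open Classical in
theorem brouwer_of_weighted {G : SimpleGraph (Fin n)} {k : ℕ}
    (h : WeightedIneq k (G.adjMatrix ℝ)) : BrouwerIneq k G := by
  intro hL s hs
  have h1 : ∀ M : Matrix (Fin n) (Fin n) ℝ, M = G.lapMatrix ℝ → ∀ hM : M.IsHermitian,
      hM.eigenvalues = hL.eigenvalues := by
    rintro M rfl hM; rfl
  have hM : (lap (G.adjMatrix ℝ)).IsHermitian := by rw [lap_adj]; exact hL
  obtain ⟨P, hP1, hP2, hP3⟩ := h hM s hs
  rw [h1 _ (lap_adj G) hM, total_adj] at hP3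
  refine hP3.trans ?_
  have : ∑ p ∈ P, G.adjMatrix ℝ p.1 p.2 ≤ ((k + 1).choose 2 : ℕ) := by
    rw [← hP1]
    have : ∑ p ∈ P, G.adjMatrix ℝ p.1 p.2 ≤ ∑ _p ∈ P, (1 : ℝ) := by
      refine Finset.sum_le_sum fun p _ => ?_
      rw [SimpleGraph.adjMatrix_apply]; split_ifs <;> norm_num
    simpa using this
  linarith

open Classical in
theorem herm_lap (G : SimpleGraph (Fin n)) : (G.lapMatrix ℝ).IsHermitian := by
  have := G.isSymm_lapMatrix (R := ℝ)
  rw [Matrix.IsHermitian, Matrix.conjTranspose_eq_transpose_of_trivial]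
  exact this

open Classical in
/-- `k = 1`, quadratic form version -/
theorem qf_one (G : SimpleGraph (Fin n)) (hn : 2 ≤ n) (y : Fin n → ℝ) (hy : ∑ i, y i * y i = 1) :
    qf (G.lapMatrix ℝ) y ≤ (G.edgeFinset.card : ℝ) + 1 := by
  have h1 := brouwer_of_weighted (weighted_one (adj_weighted G) hn)
  have h2 := kyfan (G.lapMatrix ℝ) (herm_lap G) 1 le_rfl _ (h1 (herm_lap G)) (fun _ => y) (by
    intro a b
    have : a = b := Subsingleton.elim a b
    simp [this, hy])
  simpa using h2

open Classical in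
theorem compl_edges (G H : SimpleGraph (Fin n)) (hH : H = Gᶜ) :
    (G.edgeFinset.card : ℝ) + (H.edgeFinset.card : ℝ) = ((n.choose 2 : ℕ) : ℝ) := by
  rw [← total_adj, ← total_adj, total_eq_pairs, total_eq_pairs, ← Finset.sum_add_distrib,
    ← card_pairs]
  rw [Finset.sum_congr rfl (g := fun _ => (1 : ℝ))]
  · simp
  · intro p hp
    have := (mem_pairs.mp hp).ne
    rw [SimpleGraph.adjMatrix_apply, SimpleGraph.adjMatrix_apply]
    have hH' : H.Adj p.1 p.2 ↔ p.1 ≠ p.2 ∧ ¬ G.Adj p.1 p.2 := by rw [hH, SimpleGraph.compl_adj]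
    by_cases h : G.Adj p.1 p.2
    · simp [hH', h]
    · simp [hH', h, this]

open Classical in
theorem compl_qf (G H : SimpleGraph (Fin n)) (hH : H = Gᶜ) (y : Fin n → ℝ)
    (hy : ∑ i, y i * y i = 1)
    (hy0 : ∑ i, y i = 0) : qf (G.lapMatrix ℝ) y + qf (H.lapMatrix ℝ) y = n := by
  rw [← lap_adj, ← lap_adj, qf_lap (adj_weighted G), qf_lap (adj_weighted H)]
  have hH' : ∀ i j, H.Adj i j ↔ i ≠ j ∧ ¬ G.Adj i j := by
    intro i j; rw [hH, SimpleGraph.compl_adj]
  have h1 : ∑ i, ∑ j, G.adjMatrix ℝ i j * (y i - y j) ^ 2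
      + ∑ i, ∑ j, H.adjMatrix ℝ i j * (y i - y j) ^ 2 = ∑ i, ∑ j, (y i - y j) ^ 2 := by
    rw [← Finset.sum_add_distrib]
    refine Finset.sum_congr rfl fun i _ => ?_
    rw [← Finset.sum_add_distrib]
    refine Finset.sum_congr rfl fun j _ => ?_
    rw [SimpleGraph.adjMatrix_apply, SimpleGraph.adjMatrix_apply]
    by_cases hij : i = j
    · subst hij; simp
    · by_cases h : G.Adj i j
      · simp [hH', h]
      · simp [hH', h, hij]
  have h2 : ∑ i, ∑ j, (y i - y j) ^ 2 = 2 * n := by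
    have e1 : ∀ i, ∑ j, (y i - y j) ^ 2 = n * (y i * y i) - 2 * y i * ∑ j, y j + ∑ j, y j * y j := by
      intro i
      have : ∀ j, (y i - y j) ^ 2 = y i * y i - 2 * y i * y j + y j * y j := fun j => by ring
      rw [Finset.sum_congr rfl fun j _ => this j, Finset.sum_add_distrib, Finset.sum_sub_distrib,
        Finset.sum_const, Finset.card_univ, Fintype.card_fin, nsmul_eq_mul, ← Finset.mul_sum]
    rw [Finset.sum_congr rfl fun i _ => e1 i, hy0, hy, Finset.sum_add_distrib,
      Finset.sum_sub_distrib, ← Finset.mul_sum, hy]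
    simp; ring
  rw [← add_div, h1, h2]; ring

theorem exists_unit (α β : ℝ) : ∃ p q : ℝ, p ^ 2 + q ^ 2 = 1 ∧ p * α + q * β = 0 := by
  by_cases h : α ^ 2 + β ^ 2 = 0
  · have ha : α = 0 := by nlinarith [sq_nonneg α, sq_nonneg β]
    have hb : β = 0 := by nlinarith [sq_nonneg α, sq_nonneg β]
    exact ⟨1, 0, by norm_num, by rw [ha, hb]; ring⟩
  · have hpos : 0 < α ^ 2 + β ^ 2 := lt_of_le_of_ne (by positivity) (Ne.symm h)
    set r := Real.sqrt (α ^ 2 + β ^ 2) with hr
    have hr0 : 0 < r := Real.sqrt_pos.mpr hpos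
    have hr2 : r ^ 2 = α ^ 2 + β ^ 2 := Real.sq_sqrt hpos.le
    refine ⟨β / r, -α / r, ?_, ?_⟩
    · rw [div_pow, div_pow, ← add_div, hr2]
      rw [show β ^ 2 + (-α) ^ 2 = α ^ 2 + β ^ 2 by ring]
      exact div_self h
    · field_simp; ring

open Classical in
theorem brouwer_sub_two (G : SimpleGraph (Fin n)) (hn : 3 ≤ n) : BrouwerIneq (n - 2) G := by
  intro hL s hs
  obtain ⟨H, hH⟩ : ∃ H : SimpleGraph (Fin n), H = Gᶜ := ⟨_, rfl⟩
  suffices goal' : ∑ i ∈ s, hL.eigenvalues i ≤
      (G.edgeFinset.card : ℝ) + ((n - 2 + 1).choose 2 : ℕ) from goal'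
  have inn : ∀ x y : EuclideanSpace ℝ (Fin n), inner ℝ x y = ∑ i, x i * y i := by
    intro x y
    rw [PiLp.inner_apply]
    refine Finset.sum_congr rfl fun i _ => ?_
    simp [mul_comm]
  have hsc : sᶜ.card = 2 := by
    rw [Finset.card_compl, hs, Fintype.card_fin]; omega
  obtain ⟨a, b, hab, hcomp⟩ := Finset.card_eq_two.mp hsc
  set L := G.lapMatrix ℝ with hLdef
  set w := hL.eigenvectorBasis with hw
  -- trace
  have htr : ∑ i, hL.eigenvalues i = 2 * (G.edgeFinset.card : ℝ) := by
    have h1 := hL.trace_eq_sum_eigenvalues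
    have h2 : L.trace = ∑ i, (G.degree i : ℝ) := by
      rw [hLdef, Matrix.trace]
      refine Finset.sum_congr rfl fun i _ => ?_
      simp [SimpleGraph.lapMatrix, SimpleGraph.degMatrix]
    have h3 : (∑ i, (G.degree i : ℝ)) = 2 * (G.edgeFinset.card : ℝ) := by
      exact_mod_cast G.sum_degrees_eq_twice_card_edges
    rw [← h3, ← h2, h1]
    simp
  have hsplit : ∑ i ∈ s, hL.eigenvalues i + (hL.eigenvalues a + hL.eigenvalues b)
      = 2 * (G.edgeFinset.card : ℝ) := by
    rw [← htr, ← Finset.sum_add_sum_compl s, hcomp, Finset.sum_pair hab]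
  -- quadratic form on the span of the two eigenvectors
  have eig : ∀ j i, ∑ l, L i l * w j l = hL.eigenvalues j * w j i := by
    intro j i
    have := congrFun (hL.mulVec_eigenvectorBasis j) i
    simpa [Matrix.mulVec, dotProduct] using this
  have orth : ∀ c d, ∑ i, w c i * w d i = if c = d then 1 else 0 := by
    intro c d
    rw [← inn]; exact orthonormal_iff_ite.mp w.orthonormal c d
  obtain ⟨p, q, hpq, hpq0⟩ := exists_unit (∑ i, w a i) (∑ i, w b i)
  set y : Fin n → ℝ := fun i => p * w a i + q * w b i with hy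
  have hy1 : ∑ i, y i * y i = 1 := by
    have : ∀ i, y i * y i = p ^ 2 * (w a i * w a i) + q ^ 2 * (w b i * w b i)
        + 2 * p * q * (w a i * w b i) := fun i => by rw [hy]; ring
    rw [Finset.sum_congr rfl fun i _ => this i, Finset.sum_add_distrib, Finset.sum_add_distrib,
      ← Finset.mul_sum, ← Finset.mul_sum, ← Finset.mul_sum, orth, orth, orth, if_pos rfl,
      if_pos rfl, if_neg hab]
    linarith
  have hy0 : ∑ i, y i = 0 := by
    rw [hy, Finset.sum_add_distrib, ← Finset.mul_sum, ← Finset.mul_sum]; exact hpq0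
  have hqy : qf L y = p ^ 2 * hL.eigenvalues a + q ^ 2 * hL.eigenvalues b := by
    have h1 : qf L y = ∑ i, y i * ∑ j, L i j * y j := by
      refine Finset.sum_congr rfl fun i _ => ?_
      rw [Finset.mul_sum]
      exact Finset.sum_congr rfl fun j _ => by ring
    have h2 : ∀ i, ∑ j, L i j * y j = p * hL.eigenvalues a * w a i
        + q * hL.eigenvalues b * w b i := by
      intro i
      have : ∀ j, L i j * y j = p * (L i j * w a j) + q * (L i j * w b j) :=
        fun j => by rw [hy]; ring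
      rw [Finset.sum_congr rfl fun j _ => this j, Finset.sum_add_distrib, ← Finset.mul_sum,
        ← Finset.mul_sum, eig, eig]; ring
    rw [h1, Finset.sum_congr rfl fun i _ => by rw [h2 i]]
    have h3 : ∀ i, y i * (p * hL.eigenvalues a * w a i + q * hL.eigenvalues b * w b i)
        = p ^ 2 * hL.eigenvalues a * (w a i * w a i) + q ^ 2 * hL.eigenvalues b * (w b i * w b i)
        + (p * q * hL.eigenvalues a + p * q * hL.eigenvalues b) * (w a i * w b i) :=
      fun i => by rw [hy]; ring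
    rw [Finset.sum_congr rfl fun i _ => h3 i, Finset.sum_add_distrib, Finset.sum_add_distrib,
      ← Finset.mul_sum, ← Finset.mul_sum, ← Finset.mul_sum, orth, orth, orth, if_pos rfl,
      if_pos rfl, if_neg hab]
    ring
  have hpos : ∀ i, 0 ≤ hL.eigenvalues i := by
    intro i
    exact (G.posSemidef_lapMatrix ℝ).eigenvalues_nonneg i
  have hle : qf L y ≤ hL.eigenvalues a + hL.eigenvalues b := by
    rw [hqy]
    have h1 := hpos a
    have h2 := hpos b
    nlinarith [sq_nonneg p, sq_nonneg q]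
  have hcq := compl_qf G H hH y hy1 hy0
  have hc1 := qf_one H (by omega) y hy1
  have hce := compl_edges G H hH
  have hch : ((n.choose 2 : ℕ) : ℝ) = (((n - 2 + 1).choose 2 : ℕ) : ℝ) + (n - 1) := by
    obtain ⟨m, rfl⟩ : ∃ m, n = m + 2 := ⟨n - 2, by omega⟩
    have h1 : (m + 2).choose 2 = (m + 1).choose 1 + (m + 1).choose 2 := Nat.choose_succ_succ' _ _
    rw [show m + 2 - 2 + 1 = m + 1 by omega, h1]
    push_cast
    simp
    ring
  have hqc : qf L y + qf (H.lapMatrix ℝ) y = n := hcq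
  have hfin : ∑ i ∈ s, hL.eigenvalues i ≤
      (G.edgeFinset.card : ℝ) + ((n - 2 + 1).choose 2 : ℕ) := by linarith
  exact hfin

theorem weighted_sub_two {A : Matrix (Fin n) (Fin n) ℝ} (hA : IsWeighted A) (hn : 3 ≤ n) :
    WeightedIneq (n - 2) A :=
  weighted_of_levels hA (n - 2) (by omega) (by omega) fun t _ => brouwer_sub_two (level A t) hn

end Pool.Agent.H340B
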